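import Mathlib
import Pool.Agent.Q190.Octa

/-!
# MP_a80f1a: seven translates of the octahedron

For `K` the octahedron `|x₀| + |x₁| + |x₂| ≤ 1` in `ℝ³`, `r = 1`, `x₀ = 0` and the points
`±e₁, ±e₂, ±e₃` of `K(0; 1) = K`, the `K`-surface area of `{0, ±e₁, ±e₂, ±e₃} ⊕ K` is `22`, while
that of `K(0; 2) = 2K` is `16`.
-/

namespace Pool.Agent.Results.MP_a80f1a_gt.OctahedronSevenTranslates

open MeasureTheory Set Filter Topology
open scoped Pointwise

variable {d : ℕ}

/-- `K` is centrally symmetric with centre of symmetry `c`. -/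
def SymmetricAbout (K : Set (Fin d → ℝ)) (c : Fin d → ℝ) : Prop :=
  ∀ x, x ∈ K ↔ (2 : ℝ) • c - x ∈ K

/-- The difference quotient `(λ(A ⊕ δK) - λ(A)) / δ`. -/
noncomputable def quotient (K A : Set (Fin d → ℝ)) (δ : ℝ) : ℝ :=
  ((volume (A + δ • K)).toReal - (volume A).toReal) / δ

/-- The `K`-surface area of `A` exists (the lower and the upper one agree, being the limit of the
difference quotient as `δ` tends to `0` from above) and equals `s`. The volumes involved are
required to be finite for all small `δ`. -/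
def HasSurfaceArea (K A : Set (Fin d → ℝ)) (s : ℝ) : Prop :=
  volume A ≠ ⊤ ∧ (∀ᶠ δ : ℝ in 𝓝[>] 0, volume (A + δ • K) ≠ ⊤) ∧
    Tendsto (quotient K A) (𝓝[>] 0) (𝓝 s)

/-- `K(x₀; r) = x₀ + r (K - c)`, with `c` the centre of symmetry of `K`. -/
def body (K : Set (Fin d → ℝ)) (c x₀ : Fin d → ℝ) (r : ℝ) : Set (Fin d → ℝ) :=
  (fun x => x₀ + r • (x - c)) '' K

/-- The inequality asked about fails in dimension three: there are a bounded convex centrally
symmetric set `K` (centre `c`), `r > 0`, a point `x₀` and finitely many points in `K(x₀; r)` such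
that the `K`-surface area of `{x₀, x₁, ..., x_N} ⊕ rK` exceeds that of `K(x₀; 2r)`. -/
theorem result : ∃ (K : Set (Fin 3 → ℝ)) (c x₀ : Fin 3 → ℝ) (r : ℝ) (X : Set (Fin 3 → ℝ))
    (s t : ℝ), Bornology.IsBounded K ∧ Convex ℝ K ∧ (interior K).Nonempty ∧ SymmetricAbout K c ∧
      0 < r ∧ X.Finite ∧ X.Nonempty ∧ X ⊆ body K c x₀ r ∧
      HasSurfaceArea K (insert x₀ X + r • K) s ∧ HasSurfaceArea K (body K c x₀ (2 * r)) t ∧
      t < s := by
  open Q190.Octa in
  have hnh : ∀ᶠ δ : ℝ in 𝓝[>] 0, δ ∈ Ioo (0 : ℝ) (1 / 2) := Ioo_mem_nhdsGT (by norm_num)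
  have hb : ∀ r, 0 < r → body (O 1) 0 0 r = O r := by
    intro r hr
    rw [← smul_O hr]
    simp only [body, zero_add, sub_zero]
    rfl
  have hU : ∀ δ, 0 < δ → (insert 0 X + (1 : ℝ) • O 1) + δ • O 1 = U (1 + δ) := by
    intro δ hδ
    rw [one_smul, smul_O hδ, add_assoc, add_O one_pos hδ, add_eq_U]
  have hU0 : insert 0 X + (1 : ℝ) • O 1 = U (1 + 0) := by
    rw [one_smul, add_eq_U, add_zero]
  have hfin : ∀ r, 0 ≤ r → volume (O r) ≠ ⊤ := fun r hr => by
    rw [vol_O hr]; exact ENNReal.ofReal_ne_top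
  have hfinU : ∀ t, 0 ≤ t → volume (U (1 + t)) ≠ ⊤ := fun t ht =>
    ne_top_of_le_ne_top (hfin (2 + t) (by linarith)) (measure_mono (U_sub t ht))
  refine ⟨O 1, 0, 0, 1, X, 22, 16, O_bounded 1, O_convex 1, O_interior, ?_, one_pos, X_finite,
    X_nonempty, ?_, ⟨?_, ?_, ?_⟩, ⟨?_, ?_, ?_⟩, by norm_num⟩
  · intro x
    simp only [O, mem_ofPred_eq, smul_zero, zero_sub, n1_neg]
  · rw [hb 1 one_pos]
    exact X_sub
  · rw [hU0]
    exact hfinU 0 le_rfl
  · filter_upwards [hnh] with δ hδ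
    rw [hU δ hδ.1]
    exact hfinU δ hδ.1.le
  · have hlim : Tendsto (fun δ : ℝ => 22 + 4 * δ + 4 / 3 * δ ^ 2) (𝓝[>] 0) (𝓝 22) := by
      have : Continuous (fun δ : ℝ => 22 + 4 * δ + 4 / 3 * δ ^ 2) := by fun_prop
      have h := this.tendsto 0
      simp only [mul_zero, add_zero, ne_eq, OfNat.ofNat_ne_zero, not_false_eq_true,
        zero_pow] at h
      exact h.mono_left nhdsWithin_le_nhds
    refine hlim.congr' ?_
    filter_upwards [hnh] with δ hδ
    have hδ0 : δ ≠ 0 := hδ.1.ne'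
    rw [quotient, hU δ hδ.1, hU0, vol_U hδ.1.le hδ.2.le, vol_U le_rfl (by norm_num)]
    field_simp
    ring
  · rw [hb _ (by norm_num)]
    exact hfin _ (by norm_num)
  · filter_upwards [hnh] with δ hδ
    rw [hb _ (by norm_num), smul_O hδ.1, add_O (by norm_num) hδ.1]
    exact hfin _ (by linarith [hδ.1])
  · have hlim : Tendsto (fun δ : ℝ => 16 + 8 * δ + 4 / 3 * δ ^ 2) (𝓝[>] 0) (𝓝 16) := by
      have : Continuous (fun δ : ℝ => 16 + 8 * δ + 4 / 3 * δ ^ 2) := by fun_prop
      have h := this.tendsto 0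
      simp only [mul_zero, add_zero, ne_eq, OfNat.ofNat_ne_zero, not_false_eq_true,
        zero_pow] at h
      exact h.mono_left nhdsWithin_le_nhds
    refine hlim.congr' ?_
    filter_upwards [hnh] with δ hδ
    have hδ0 : 0 < δ := hδ.1
    rw [quotient, hb _ (by norm_num), smul_O hδ.1, add_O (by norm_num) hδ.1,
      vol_O (by linarith), vol_O (by norm_num), ENNReal.toReal_ofReal (by positivity),
      ENNReal.toReal_ofReal (by norm_num)]
    field_simp
    ring

end Pool.Agent.Results.MP_a80f1a_gt.OctahedronSevenTranslates
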